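import Pool.Agent.T2H67.RP.Fin
import Pool.Agent.T2H95.LR.BC

/-! # All Dirichlet characters and all `n ^ (-it)` at once -/

set_option autoImplicit false

open MeasureTheory ProbabilityTheory Finset Filter Topology

namespace Pool.Agent.T2H67.RP

open Pool.Agent.T2H31.RC
open Pool.Agent.T2H95.LR.BC (gw norm_gw card_char)

/-- `1` or the indicator function of the squarefree numbers -/
noncomputable def sq (b : Bool) (n : ℕ) : ℂ := open Classical in if b = true ∧ ¬ Squarefree n then 0 else 1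

lemma norm_sq (b : Bool) (n : ℕ) : ‖sq b n‖ ≤ 1 := by
  unfold sq
  split_ifs <;> simp

/-- the weights -/
noncomputable def wt (b : Bool) {q : ℕ} (χ : DirichletCharacter ℂ q) (t : ℝ) (n : ℕ) : ℂ :=
  sq b n * gw χ t n

lemma norm_wt (b : Bool) {q : ℕ} (χ : DirichletCharacter ℂ q) (t : ℝ) (n : ℕ) : ‖wt b χ t n‖ ≤ 1 := by
  unfold wt
  rw [norm_mul]
  exact mul_le_one₀ (norm_sq b n) (norm_nonneg _) (norm_gw χ t n)

lemma gw_sub {q : ℕ} (χ : DirichletCharacter ℂ q) (t t' : ℝ) {n : ℕ} (hn : 1 ≤ n) :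
    ‖gw χ t n - gw χ t' n‖ ≤ |t - t'| * Real.log n := by
  have hn0 : n ≠ 0 := by omega
  have hnc : (n : ℂ) ≠ 0 := by exact_mod_cast hn0
  have h1 : ∀ s : ℝ, (n : ℂ) ^ (-(s * Complex.I)) = ee (-(s * Real.log n / (2 * Real.pi))) := by
    intro s
    have hpi : (Real.pi : ℂ) ≠ 0 := by exact_mod_cast Real.pi_ne_zero
    rw [Complex.cpow_def_of_ne_zero hnc]
    unfold ee
    congr 1
    have h2 : Complex.log (n : ℂ) = ((Real.log n : ℝ) : ℂ) := by
      rw [Complex.natCast_log]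
    rw [h2]
    push_cast
    field_simp
  unfold gw
  rw [if_neg hn0, if_neg hn0, ← mul_sub, norm_mul, h1, h1]
  have h3 := FAIRM.ee_lip (-(t * Real.log n / (2 * Real.pi))) (-(t' * Real.log n / (2 * Real.pi)))
  have h4 : 2 * Real.pi * |-(t * Real.log n / (2 * Real.pi)) - -(t' * Real.log n / (2 * Real.pi))| =
      |t - t'| * Real.log n := by
    have hlog : 0 ≤ Real.log n := Real.log_nonneg (by exact_mod_cast hn)
    have h5 : -(t * Real.log n / (2 * Real.pi)) - -(t' * Real.log n / (2 * Real.pi)) =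
        -((t - t') * Real.log n / (2 * Real.pi)) := by ring
    rw [h5, abs_neg, abs_div, abs_mul, abs_of_nonneg hlog, abs_of_pos (by positivity : 0 < 2 * Real.pi)]
    field_simp
  rw [h4] at h3
  calc ‖χ (n : ZMod q)‖ * ‖ee (-(t * Real.log n / (2 * Real.pi))) - ee (-(t' * Real.log n / (2 * Real.pi)))‖
      ≤ 1 * (|t - t'| * Real.log n) :=
        mul_le_mul (DirichletCharacter.norm_le_one χ _) h3 (norm_nonneg _) zero_le_one
    _ = _ := one_mul _

/-- the family of weights -/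
noncomputable def WW (B N : ℕ) : Finset (ℕ → ℂ) := by
  classical
  exact (Icc 1 (N ^ B)).biUnion fun q =>
    ((univ : Finset (DirichletCharacter ℂ q)) ×ˢ ((univ : Finset Bool) ×ˢ
      Icc (-((N : ℤ) ^ (B + 2) + 1)) ((N : ℤ) ^ (B + 2) + 1))).image
      fun z => wt z.2.1 z.1 ((z.2.2 : ℝ) / (N : ℝ) ^ 2)

lemma mem_WW {B N q : ℕ} (hq1 : 1 ≤ q) (hq : q ≤ N ^ B) (χ : DirichletCharacter ℂ q) (b : Bool) (j : ℤ)
    (hj : |j| ≤ (N : ℤ) ^ (B + 2) + 1) : wt b χ ((j : ℝ) / (N : ℝ) ^ 2) ∈ WW B N := by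
  classical
  unfold WW
  rw [mem_biUnion]
  refine ⟨q, mem_Icc.2 ⟨hq1, hq⟩, mem_image.2 ⟨(χ, b, j), ?_, rfl⟩⟩
  rw [mem_product, mem_product, mem_Icc]
  exact ⟨mem_univ _, mem_univ _, abs_le.1 hj⟩

lemma norm_WW {B N : ℕ} {w : ℕ → ℂ} (hw : w ∈ WW B N) (n : ℕ) : ‖w n‖ ≤ 1 := by
  classical
  unfold WW at hw
  rw [mem_biUnion] at hw
  obtain ⟨q, -, hw⟩ := hw
  obtain ⟨z, -, rfl⟩ := mem_image.1 hw
  exact norm_wt _ _ _ _

lemma card_WW (B N : ℕ) (hN : 3 ≤ N) : (WW B N).card ≤ N ^ (3 * B + 4) := by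
  classical
  unfold WW
  refine card_biUnion_le.trans ?_
  have h1 : ∀ q ∈ Icc 1 (N ^ B), (((univ : Finset (DirichletCharacter ℂ q)) ×ˢ ((univ : Finset Bool) ×ˢ
      Icc (-((N : ℤ) ^ (B + 2) + 1)) ((N : ℤ) ^ (B + 2) + 1))).image
      fun z => wt z.2.1 z.1 ((z.2.2 : ℝ) / (N : ℝ) ^ 2)).card ≤ N ^ B * N ^ (B + 4) := by
    intro q hq
    obtain ⟨hq1, hq2⟩ := mem_Icc.1 hq
    refine card_image_le.trans ?_
    rw [card_product, card_product, Int.card_Icc]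
    have h2 : (Finset.univ : Finset (DirichletCharacter ℂ q)).card ≤ N ^ B := by
      rw [Finset.card_univ, ← Nat.card_eq_fintype_card]
      exact (card_char q hq1).trans hq2
    have h3 : ((N : ℤ) ^ (B + 2) + 1 + 1 - -((N : ℤ) ^ (B + 2) + 1)).toNat = 2 * N ^ (B + 2) + 3 := by
      have : ((N : ℤ) ^ (B + 2) + 1 + 1 - -((N : ℤ) ^ (B + 2) + 1)) = ((2 * N ^ (B + 2) + 3 : ℕ) : ℤ) := by
        push_cast; ring
      rw [this, Int.toNat_natCast]
    rw [h3]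
    refine Nat.mul_le_mul h2 ?_
    have h4 : (univ : Finset Bool).card = 2 := by simp
    rw [h4]
    have h5 : 3 ≤ N ^ (B + 2) := by
      calc 3 ≤ N ^ 1 := by simpa using hN
        _ ≤ N ^ (B + 2) := Nat.pow_le_pow_right (by omega) (by omega)
    have h6 : N ^ (B + 4) = N ^ (B + 2) * (N * N) := by rw [show B + 4 = B + 2 + 2 by ring, pow_add N (B + 2)]; ring
    have h7 : 9 ≤ N * N := Nat.mul_le_mul hN hN
    have h8 : N ^ (B + 2) * 9 ≤ N ^ (B + 2) * (N * N) := Nat.mul_le_mul le_rfl h7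
    omega
  refine (sum_le_sum h1).trans (le_of_eq ?_)
  rw [sum_const, Nat.card_Icc, smul_eq_mul, Nat.add_sub_cancel]
  rw [← pow_add, ← pow_add]
  congr 1
  ring

section

variable {Ω : Type} [MeasurableSpace Ω] {P : Measure Ω} {X : ℕ → Ω → ℝ}

lemma ex_pos {N D : ℕ} (hN : 3 ≤ N) (hD : 1 ≤ D) :
    0 < Real.sqrt (Real.log 3 * Real.log (Real.log 3)) ∧
      Real.sqrt (Real.log 3 * Real.log (Real.log 3)) ≤ ex N D := by
  have hl3 : 1 < Real.log 3 := by
    rw [Real.lt_log_iff_exp_lt (by norm_num)]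
    have := Real.exp_one_lt_d9
    linarith
  have hll3 : 0 < Real.log (Real.log 3) := Real.log_pos hl3
  refine ⟨Real.sqrt_pos.2 (mul_pos (by linarith) hll3), ?_⟩
  have h3 : (3 : ℝ) ≤ N := by exact_mod_cast hN
  have h1 : Real.log 3 ≤ Real.log N := Real.log_le_log (by norm_num) h3
  have h2 : Real.log (Real.log 3) ≤ Real.log (Real.log N) := Real.log_le_log (by linarith) h1
  have h4 : Real.sqrt (Real.log 3 * Real.log (Real.log 3)) ≤
      Real.sqrt (Real.log N * Real.log (Real.log N)) :=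
    Real.sqrt_le_sqrt (mul_le_mul h1 h2 hll3.le (by linarith))
  have h5 : (1 : ℝ) ≤ D := by exact_mod_cast hD
  have h6 := Real.sqrt_nonneg (Real.log 3 * Real.log (Real.log 3))
  unfold ex
  nlinarith

theorem all (hX : Noise P (fun _ => 1 / 2) X) (B : ℕ) :
    ∀ᵐ ω ∂P, ∃ C : ℝ, ∀ N : ℕ, 3 ≤ N → ∀ D : ℕ, 1 ≤ D → ∀ q : ℕ, 1 ≤ q → q ≤ N ^ B →
      ∀ χ : DirichletCharacter ℂ q, ∀ t : ℝ, |t| ≤ (N : ℝ) ^ B → ∀ Q : Polynomial ℝ, Q.natDegree ≤ D →
      ∀ b : Bool, ‖T (fun p => X p ω) (fun n => wt b χ t n * ee (Q.eval (n : ℝ))) N‖ ≤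
        Real.sqrt N * Real.exp (C * ex N D) := by
  have hc : ∀ᶠ N : ℕ in atTop, ((WW B N).card : ℝ) ≤ (N : ℝ) ^ (3 * B + 4) := by
    filter_upwards [eventually_ge_atTop 3] with N hN
    exact_mod_cast card_WW B N hN
  filter_upwards [unif hX (3 * B + 4) (WW B) (fun N w hw n => norm_WW hw n) hc] with ω hω
  obtain ⟨C, hC⟩ := hω
  refine ⟨max C 0 + Real.log 2 / Real.sqrt (Real.log 3 * Real.log (Real.log 3)),
    fun N hN D hD q hq1 hq χ t ht Q hQ b => ?_⟩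
  obtain ⟨hκ, hκe⟩ := ex_pos hN hD
  have h3 : (3 : ℝ) ≤ N := by exact_mod_cast hN
  have hNpos : (0 : ℝ) < N := by linarith
  set j : ℤ := round (t * (N : ℝ) ^ 2) with hj
  have hj1 : |t * (N : ℝ) ^ 2 - j| ≤ 1 / 2 := abs_sub_round _
  have hj2 : |j| ≤ (N : ℤ) ^ (B + 2) + 1 := by
    have h4 : |(j : ℝ)| ≤ (N : ℝ) ^ (B + 2) + 1 := by
      have h5 : |(j : ℝ)| ≤ |t * (N : ℝ) ^ 2| + |t * (N : ℝ) ^ 2 - j| := by
        have := abs_sub_abs_le_abs_sub (j : ℝ) (t * (N : ℝ) ^ 2)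
        rw [abs_sub_comm] at this
        linarith
      have h6 : |t * (N : ℝ) ^ 2| ≤ (N : ℝ) ^ (B + 2) := by
        rw [abs_mul, abs_of_nonneg (by positivity : (0 : ℝ) ≤ (N : ℝ) ^ 2), pow_add]
        exact mul_le_mul_of_nonneg_right ht (by positivity)
      linarith
    exact_mod_cast h4
  have hj3 : |t - (j : ℝ) / (N : ℝ) ^ 2| ≤ 1 / (N : ℝ) ^ 2 := by
    have h4 : t - (j : ℝ) / (N : ℝ) ^ 2 = (t * (N : ℝ) ^ 2 - j) / (N : ℝ) ^ 2 := by field_simp
    rw [h4, abs_div, abs_of_pos (by positivity : (0 : ℝ) < (N : ℝ) ^ 2)]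
    gcongr
    linarith
  have h7 := hC N hN D hD _ (mem_WW hq1 hq χ b j hj2) Q hQ
  have h8 : ‖T (fun p => X p ω) (fun n => wt b χ t n * ee (Q.eval (n : ℝ))) N -
      T (fun p => X p ω) (fun n => wt b χ ((j : ℝ) / (N : ℝ) ^ 2) n * ee (Q.eval (n : ℝ))) N‖ ≤ 1 := by
    unfold T
    rw [← sum_sub_distrib]
    refine (norm_sum_le _ _).trans ?_
    have e1 : ∀ n ∈ Icc 1 N, ‖wt b χ t n * ee (Q.eval (n : ℝ)) * (cm (fun p => X p ω) (n : ℤ) : ℂ) -
        wt b χ ((j : ℝ) / (N : ℝ) ^ 2) n * ee (Q.eval (n : ℝ)) * (cm (fun p => X p ω) (n : ℤ) : ℂ)‖ ≤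
        1 / (N : ℝ) := by
      intro n hn
      obtain ⟨hn1, hn2⟩ := mem_Icc.1 hn
      have hn0 : (n : ℤ) ≠ 0 := by exact_mod_cast (by omega : n ≠ 0)
      rw [← sub_mul, ← sub_mul, norm_mul, norm_mul, Complex.norm_real, Real.norm_eq_abs,
        OdL.cm_Od (fun p => hX.val p ω) hn0, OdL.abs_prod_X hX, mul_one, FAIRM.ee_norm, mul_one]
      unfold wt
      rw [← mul_sub, norm_mul]
      have h9 := gw_sub χ t ((j : ℝ) / (N : ℝ) ^ 2) hn1
      have hlog : Real.log n ≤ N := by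
        have hn' : (0 : ℝ) < n := by exact_mod_cast hn1
        have := Real.log_le_sub_one_of_pos hn'
        have h10 : (n : ℝ) ≤ N := by exact_mod_cast hn2
        linarith
      have hlog0 : 0 ≤ Real.log n := Real.log_nonneg (by exact_mod_cast hn1)
      have h11 : |t - (j : ℝ) / (N : ℝ) ^ 2| * Real.log n ≤ 1 / (N : ℝ) ^ 2 * N :=
        mul_le_mul hj3 hlog hlog0 (by positivity)
      have h12 : 1 / (N : ℝ) ^ 2 * N = 1 / N := by field_simp
      calc ‖sq b n‖ * ‖gw χ t n - gw χ ((j : ℝ) / (N : ℝ) ^ 2) n‖ ≤ 1 * (1 / N) :=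
            mul_le_mul (norm_sq b n) (by rw [← h12]; exact h9.trans h11) (norm_nonneg _) zero_le_one
        _ = 1 / N := one_mul _
    refine (sum_le_sum e1).trans (le_of_eq ?_)
    rw [sum_const, Nat.card_Icc, nsmul_eq_mul, Nat.add_sub_cancel]
    field_simp
  have h9 := norm_le_norm_add_norm_sub' (T (fun p => X p ω) (fun n => wt b χ t n * ee (Q.eval (n : ℝ))) N)
    (T (fun p => X p ω) (fun n => wt b χ ((j : ℝ) / (N : ℝ) ^ 2) n * ee (Q.eval (n : ℝ))) N)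
  have hex0 : 0 ≤ ex N D := by linarith
  have hsN : 1 ≤ Real.sqrt N := by rw [Real.one_le_sqrt]; linarith
  have h10 : Real.sqrt N * Real.exp (C * ex N D) ≤ Real.sqrt N * Real.exp (max C 0 * ex N D) := by
    refine mul_le_mul_of_nonneg_left (Real.exp_le_exp.2 ?_) (by linarith)
    exact mul_le_mul_of_nonneg_right (le_max_left _ _) hex0
  have h11 : (1 : ℝ) ≤ Real.exp (max C 0 * ex N D) :=
    Real.one_le_exp (mul_nonneg (le_max_right _ _) hex0)
  have h12 : (2 : ℝ) ≤ Real.exp (Real.log 2 / Real.sqrt (Real.log 3 * Real.log (Real.log 3)) * ex N D) := by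
    have h13 : Real.log 2 ≤ Real.log 2 / Real.sqrt (Real.log 3 * Real.log (Real.log 3)) * ex N D := by
      rw [div_mul_eq_mul_div, le_div_iff₀ hκ]
      exact mul_le_mul_of_nonneg_left hκe (Real.log_nonneg (by norm_num))
    calc (2 : ℝ) = Real.exp (Real.log 2) := (Real.exp_log (by norm_num)).symm
      _ ≤ _ := Real.exp_le_exp.2 h13
  rw [add_mul, Real.exp_add]
  have h14 : 1 ≤ Real.sqrt N * Real.exp (max C 0 * ex N D) := by nlinarith
  have h15 : Real.sqrt N * (Real.exp (max C 0 * ex N D) *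
      Real.exp (Real.log 2 / Real.sqrt (Real.log 3 * Real.log (Real.log 3)) * ex N D)) =
      (Real.sqrt N * Real.exp (max C 0 * ex N D)) *
      Real.exp (Real.log 2 / Real.sqrt (Real.log 3 * Real.log (Real.log 3)) * ex N D) := by ring
  rw [h15]
  nlinarith

end

end Pool.Agent.T2H67.RP
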