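import Mathlib

/-! # The choice of the order of the moment -/

set_option autoImplicit false

open Filter Topology

namespace Pool.Agent.T2H67.RP

theorem opt (A : ℕ) : ∀ᶠ N : ℕ in atTop, ∀ D : ℕ, 1 ≤ D → (D : ℝ) ≤ Real.log N → ∃ k : ℕ, 1 ≤ k ∧
    (N : ℝ) ^ (A + (D + 2) * (D + 1)) *
      ((1 + k * Real.log N) ^ (16 * k ^ 2) /
        Real.exp ((140 + A) * D * Real.sqrt (Real.log N * Real.log (Real.log N))) ^ (2 * k)) ≤
      1 / (N : ℝ) ^ 3 := by
  have h1 : ∀ᶠ N : ℕ in atTop, (3 : ℝ) ≤ Real.log N :=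
    (Real.tendsto_log_atTop.comp tendsto_natCast_atTop_atTop).eventually_ge_atTop 3
  filter_upwards [h1, eventually_ge_atTop 1] with N hL hN1 D hD hDL
  set L := Real.log N with hLd
  set l := Real.log L with hld
  have hNpos : (0 : ℝ) < N := by exact_mod_cast hN1
  have hL0 : 0 < L := by linarith
  have hl1 : 1 ≤ l := by
    rw [hld, Real.le_log_iff_exp_le (by linarith)]
    have := Real.exp_one_lt_d9
    linarith
  have hlL : l ≤ L := (Real.log_le_sub_one_of_pos (by linarith)).trans (by linarith)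
  have hD1 : (1 : ℝ) ≤ D := by exact_mod_cast hD
  have hD0 : (0 : ℝ) < D := by linarith
  set s := Real.sqrt (L / l) with hs
  have hs1 : 1 ≤ s := by
    rw [hs, Real.one_le_sqrt, le_div_iff₀ (by linarith)]
    linarith
  have hs2 : s ^ 2 = L / l := Real.sq_sqrt (by positivity)
  have hsL : s ≤ L := by
    have h2 : s ≤ s ^ 2 := by nlinarith
    have h3 : L / l ≤ L := div_le_self (by linarith) hl1
    linarith
  have hDs : 1 ≤ D * s := by nlinarith
  refine ⟨⌈D * s⌉₊, Nat.one_le_ceil_iff.2 (by linarith), ?_⟩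
  set k := ⌈D * s⌉₊ with hk
  have hk1 : D * s ≤ k := Nat.le_ceil _
  have hk2 : (k : ℝ) ≤ 2 * (D * s) := by
    have := (Nat.ceil_lt_add_one (by linarith : 0 ≤ D * s)).le
    linarith
  have hk0 : (0 : ℝ) ≤ k := by linarith
  have hDsL : D * s ≤ L * L := mul_le_mul hDL hsL (by linarith) hL0.le
  have hkL : 1 + k * L ≤ L ^ 4 := by
    have h4 : (k : ℝ) * L ≤ 2 * (L * L) * L := by
      apply mul_le_mul_of_nonneg_right _ hL0.le
      linarith
    have h5 : 27 ≤ L ^ 3 := by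
      have := pow_le_pow_left₀ (by norm_num : (0 : ℝ) ≤ 3) hL 3
      linarith
    have h6 : L ^ 4 = L * L ^ 3 := by ring
    have h7 : 3 * L ^ 3 ≤ L * L ^ 3 := mul_le_mul_of_nonneg_right hL (by positivity)
    nlinarith
  have hkl : (k : ℝ) ^ 2 * l ≤ 4 * (D ^ 2 * L) := by
    have h5 : (k : ℝ) ^ 2 ≤ (2 * (D * s)) ^ 2 := pow_le_pow_left₀ hk0 hk2 2
    calc (k : ℝ) ^ 2 * l ≤ (2 * (D * s)) ^ 2 * l := by gcongr
      _ = 4 * (D ^ 2 * (s ^ 2 * l)) := by ring
      _ = 4 * (D ^ 2 * L) := by rw [hs2]; field_simp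
  have hsq : s * Real.sqrt (L * l) = L := by
    rw [hs, ← Real.sqrt_mul (by positivity)]
    rw [show L / l * (L * l) = L ^ 2 by field_simp]
    exact Real.sqrt_sq hL0.le
  have hkq : D * L ≤ k * Real.sqrt (L * l) := by
    calc D * L = D * s * Real.sqrt (L * l) := by rw [mul_assoc, hsq]
      _ ≤ k * Real.sqrt (L * l) := by gcongr
  have e1 : (N : ℝ) = Real.exp L := (Real.exp_log hNpos).symm
  have e2 : L = Real.exp l := (Real.exp_log hL0).symm
  have h6 : (1 + k * L) ^ (16 * k ^ 2) ≤ Real.exp (256 * (D ^ 2 * L)) := by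
    calc (1 + k * L) ^ (16 * k ^ 2) ≤ (L ^ 4) ^ (16 * k ^ 2) := by
          apply pow_le_pow_left₀ (by positivity) hkL
      _ = Real.exp l ^ (64 * k ^ 2) := by
          rw [← e2, ← pow_mul]
          congr 1
          ring
      _ = Real.exp (((64 * k ^ 2 : ℕ) : ℝ) * l) := (Real.exp_nat_mul l _).symm
      _ ≤ Real.exp (256 * (D ^ 2 * L)) := by
          apply Real.exp_le_exp.2
          push_cast
          linarith
  have h7 : (N : ℝ) ^ (A + (D + 2) * (D + 1)) = Real.exp (((A + (D + 2) * (D + 1) : ℕ) : ℝ) * L) := by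
    rw [e1, ← Real.exp_nat_mul]
  have h8 : 1 / (N : ℝ) ^ 3 = Real.exp (-(3 * L)) := by
    rw [e1, ← Real.exp_nat_mul, Real.exp_neg, one_div]
    norm_num
  have hDD : (D : ℝ) ≤ D ^ 2 := by nlinarith
  have hDD1 : (1 : ℝ) ≤ D ^ 2 := by nlinarith
  have h9 : ((A + (D + 2) * (D + 1) : ℕ) : ℝ) ≤ (A + 6) * D ^ 2 := by
    push_cast
    have : (A : ℝ) * 1 ≤ A * D ^ 2 := mul_le_mul_of_nonneg_left hDD1 (Nat.cast_nonneg _)
    nlinarith
  rw [h7, h8, ← mul_div_assoc, div_le_iff₀ (by positivity), ← Real.exp_nat_mul, ← Real.exp_add]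
  calc Real.exp (((A + (D + 2) * (D + 1) : ℕ) : ℝ) * L) * (1 + k * L) ^ (16 * k ^ 2)
      ≤ Real.exp ((A + 6) * D ^ 2 * L) * Real.exp (256 * (D ^ 2 * L)) := by
        gcongr
    _ = Real.exp ((A + 6) * D ^ 2 * L + 256 * (D ^ 2 * L)) := (Real.exp_add _ _).symm
    _ ≤ _ := by
      apply Real.exp_le_exp.2
      push_cast
      have h10 : (140 + A) * (D * (D * L)) ≤ (140 + A) * (D * (k * Real.sqrt (L * l))) := by
        gcongr
      have h11 : 1 * L ≤ D ^ 2 * L := mul_le_mul_of_nonneg_right hDD1 hL0.le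
      have h12 : (0 : ℝ) ≤ A * (D ^ 2 * L) := by positivity
      nlinarith

end Pool.Agent.T2H67.RP
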