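import Pool.Agent.T2H67.RP.Mom
import Pool.Agent.T2H67.RP.Opt

/-! # Uniform bounds for all polynomial phases of all degrees -/

set_option autoImplicit false

open MeasureTheory ProbabilityTheory Finset Filter Topology

namespace Pool.Agent.T2H67.RP

open Pool.Agent.T2H31.RC

/-- the exponent `D √(log N log log N)` -/
noncomputable def ex (N D : ℕ) : ℝ := D * Real.sqrt (Real.log N * Real.log (Real.log N))

section

variable {Ω : Type} [MeasurableSpace Ω] {P : Measure Ω} {X : ℕ → Ω → ℝ}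

/-- the weight with the phase of the net -/
noncomputable def gn (N D : ℕ) (w : ℕ → ℂ) (q : Fin (D + 1) → ℕ) (n : ℕ) : ℂ :=
  w n * ee (FAIRM.pn N D q n)

theorem bc (hX : Noise P (fun _ => 1 / 2) X) (A : ℕ) (W : ℕ → Finset (ℕ → ℂ))
    (hW : ∀ N, ∀ w ∈ W N, ∀ n, ‖w n‖ ≤ 1) (hWc : ∀ᶠ N : ℕ in atTop, ((W N).card : ℝ) ≤ (N : ℝ) ^ A) :
    ∀ᵐ ω ∂P, ∀ᶠ N : ℕ in atTop, ∀ D : ℕ, 1 ≤ D → (D : ℝ) ≤ Real.log N → ∀ w ∈ W N,
      ∀ q ∈ Fintype.piFinset (fun _ : Fin (D + 1) => range (N ^ (D + 2))),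
      ‖T (fun p => X p ω) (gn N D w q) N‖ < Real.sqrt N * Real.exp ((140 + A) * ex N D) := by
  have hprob := hX.prob
  obtain ⟨N₁, hN₁⟩ := eventually_atTop.1 ((opt A).and (hWc.and (eventually_ge_atTop 1)))
  classical
  let E : ℕ → (D : ℕ) → (ℕ → ℂ) → (Fin (D + 1) → ℕ) → Set Ω := fun N D w q =>
    {ω | Real.sqrt N * Real.exp ((140 + A) * ex N D) ≤ ‖T (fun p => X p ω) (gn N D w q) N‖}
  let Ds : ℕ → Finset ℕ := fun N => (Icc 1 N).filter fun D => (D : ℝ) ≤ Real.log N
  obtain ⟨s, hs⟩ : ∃ s : ℕ → Set Ω, s = fun N => if N₁ ≤ N then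
      ⋃ D ∈ Ds N, ⋃ w ∈ W N, ⋃ q ∈ Fintype.piFinset (fun _ : Fin (D + 1) => range (N ^ (D + 2))),
        E N D w q else ∅ := ⟨_, rfl⟩
  have hbd : ∀ N, P (s N) ≤ ENNReal.ofReal (1 / (N : ℝ) ^ 2) := by
    intro N
    rw [hs]
    beta_reduce
    split_ifs with hN
    swap
    · rw [measure_empty]
      exact zero_le
    obtain ⟨hopt, hcard, h1⟩ := hN₁ N hN
    have hNr : (1 : ℝ) ≤ N := by exact_mod_cast h1
    have hNpos : (0 : ℝ) < N := by linarith
    have hone : ∀ D ∈ Ds N, P (⋃ w ∈ W N,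
        ⋃ q ∈ Fintype.piFinset (fun _ : Fin (D + 1) => range (N ^ (D + 2))), E N D w q) ≤
        ENNReal.ofReal (1 / (N : ℝ) ^ 3) := by
      intro D hD
      obtain ⟨hD1, hD2⟩ := mem_filter.1 hD
      obtain ⟨k, hk, hk2⟩ := hopt D (mem_Icc.1 hD1).1 hD2
      set b : ℝ := (1 + k * Real.log N) ^ (16 * k ^ 2) /
        Real.exp ((140 + A) * D * Real.sqrt (Real.log N * Real.log (Real.log N))) ^ (2 * k) with hb
      have hlog : 0 ≤ Real.log N := Real.log_nonneg hNr
      have hb0 : 0 ≤ b := by rw [hb]; positivity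
      have hE : ∀ w ∈ W N, ∀ q, P (E N D w q) ≤ ENNReal.ofReal b := by
        intro w hw q
        have h2 := tail hX (gn N D w q) (fun n => by
          unfold gn
          rw [norm_mul, FAIRM.ee_norm, mul_one]
          exact hW N w hw n) k N hk h1 (Real.exp ((140 + A) * ex N D)) (Real.exp_pos _)
        have h3 : Real.exp ((140 + A) * ex N D) =
            Real.exp ((140 + A) * D * Real.sqrt (Real.log N * Real.log (Real.log N))) := by
          unfold ex; congr 1; ring
        rw [h3] at h2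
        simp only [E]
        rw [h3]
        exact h2
      calc P (⋃ w ∈ W N, ⋃ q ∈ Fintype.piFinset (fun _ : Fin (D + 1) => range (N ^ (D + 2))), E N D w q)
          ≤ ∑ w ∈ W N, P (⋃ q ∈ Fintype.piFinset (fun _ : Fin (D + 1) => range (N ^ (D + 2))),
            E N D w q) := measure_biUnion_finset_le _ _
        _ ≤ ∑ _w ∈ W N, ((Fintype.piFinset (fun _ : Fin (D + 1) => range (N ^ (D + 2)))).card : ENNReal) *
            ENNReal.ofReal b := by
            refine sum_le_sum fun w hw => ?_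
            refine (measure_biUnion_finset_le _ _).trans ?_
            refine (sum_le_sum fun q _ => hE w hw q).trans (le_of_eq ?_)
            rw [sum_const, nsmul_eq_mul]
        _ = ENNReal.ofReal (((W N).card : ℝ) * ((N : ℝ) ^ ((D + 2) * (D + 1)) * b)) := by
            rw [sum_const, nsmul_eq_mul, ENNReal.ofReal_mul (Nat.cast_nonneg _),
              ENNReal.ofReal_mul (by positivity), ENNReal.ofReal_natCast]
            congr 2
            rw [Fintype.card_piFinset]
            simp only [card_range, prod_const, card_univ, Fintype.card_fin]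
            rw [← pow_mul, ← Nat.cast_pow, ENNReal.ofReal_natCast]
        _ ≤ ENNReal.ofReal (1 / (N : ℝ) ^ 3) := by
            refine ENNReal.ofReal_le_ofReal (le_trans ?_ hk2)
            rw [pow_add, mul_assoc]
            exact mul_le_mul_of_nonneg_right hcard (by positivity)
    calc P (⋃ D ∈ Ds N, ⋃ w ∈ W N,
          ⋃ q ∈ Fintype.piFinset (fun _ : Fin (D + 1) => range (N ^ (D + 2))), E N D w q)
        ≤ ∑ D ∈ Ds N, P (⋃ w ∈ W N,
          ⋃ q ∈ Fintype.piFinset (fun _ : Fin (D + 1) => range (N ^ (D + 2))), E N D w q) :=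
          measure_biUnion_finset_le _ _
      _ ≤ ∑ _D ∈ Ds N, ENNReal.ofReal (1 / (N : ℝ) ^ 3) := sum_le_sum hone
      _ = ENNReal.ofReal ((Ds N).card * (1 / (N : ℝ) ^ 3)) := by
          rw [sum_const, nsmul_eq_mul, ENNReal.ofReal_mul (Nat.cast_nonneg _),
            ENNReal.ofReal_natCast]
      _ ≤ ENNReal.ofReal (1 / (N : ℝ) ^ 2) := by
          refine ENNReal.ofReal_le_ofReal ?_
          have h4 : ((Ds N).card : ℝ) ≤ N := by
            have := card_filter_le (Icc 1 N) (fun D : ℕ => (D : ℝ) ≤ Real.log N)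
            rw [Nat.card_Icc, Nat.add_sub_cancel] at this
            exact_mod_cast this
          calc ((Ds N).card : ℝ) * (1 / (N : ℝ) ^ 3) ≤ N * (1 / (N : ℝ) ^ 3) :=
                mul_le_mul_of_nonneg_right h4 (by positivity)
            _ = 1 / (N : ℝ) ^ 2 := by field_simp
  have hsum : ∑' N, P (s N) ≠ ⊤ := by
    refine ne_top_of_le_ne_top ?_ (ENNReal.tsum_le_tsum hbd)
    exact (Real.summable_one_div_nat_pow.2 (by norm_num : 1 < 2)).tsum_ofReal_ne_top
  filter_upwards [ae_eventually_notMem hsum] with ω hω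
  filter_upwards [hω, eventually_ge_atTop N₁, eventually_ge_atTop 1] with N hN hN2 hN3 D hD hDL w hw q hq
  by_contra hcon
  apply hN
  rw [hs]
  beta_reduce
  rw [if_pos hN2]
  have hDN : D ∈ Ds N := by
    refine mem_filter.2 ⟨mem_Icc.2 ⟨hD, ?_⟩, hDL⟩
    have hNpos : (0 : ℝ) < N := by exact_mod_cast hN3
    have h5 := Real.log_le_sub_one_of_pos hNpos
    have h6 : (D : ℝ) ≤ N := by linarith
    exact_mod_cast h6
  refine Set.mem_biUnion hDN (Set.mem_biUnion hw (Set.mem_biUnion hq ?_))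
  exact not_lt.1 hcon

/-- the bound for the real polynomials -/
theorem unif (hX : Noise P (fun _ => 1 / 2) X) (A : ℕ) (W : ℕ → Finset (ℕ → ℂ))
    (hW : ∀ N, ∀ w ∈ W N, ∀ n, ‖w n‖ ≤ 1) (hWc : ∀ᶠ N : ℕ in atTop, ((W N).card : ℝ) ≤ (N : ℝ) ^ A) :
    ∀ᵐ ω ∂P, ∃ C : ℝ, ∀ N : ℕ, 3 ≤ N → ∀ D : ℕ, 1 ≤ D → ∀ w ∈ W N, ∀ Q : Polynomial ℝ, Q.natDegree ≤ D →
      ‖T (fun p => X p ω) (fun n => w n * ee (Q.eval (n : ℝ))) N‖ ≤
        Real.sqrt N * Real.exp (C * ex N D) := by
  have hL : ∀ᶠ N : ℕ in atTop, (3 : ℝ) ≤ Real.log N :=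
    (Real.tendsto_log_atTop.comp tendsto_natCast_atTop_atTop).eventually_ge_atTop 3
  have hlogsmall : ∀ᶠ N : ℕ in atTop, 2 * Real.pi * (Real.log N + 1) ≤ (N : ℝ) := by
    have h1 : Tendsto (fun x : ℝ => Real.log x / x) atTop (𝓝 0) := by
      have := Real.isLittleO_log_id_atTop.tendsto_div_nhds_zero
      simpa using this
    have h2 : ∀ᶠ x : ℝ in atTop, Real.log x / x < 1 / 20 := h1.eventually_lt_const (by norm_num)
    have h3 : ∀ᶠ N : ℕ in atTop, Real.log (N : ℝ) / (N : ℝ) < 1 / 20 :=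
      (tendsto_natCast_atTop_atTop (R := ℝ)).eventually h2
    filter_upwards [h3, eventually_ge_atTop 100] with N h4 h5
    have h6 : (100 : ℝ) ≤ N := by exact_mod_cast h5
    rw [div_lt_iff₀ (by linarith)] at h4
    have := Real.pi_lt_d2
    have hpi := Real.pi_pos
    have h7 : Real.log N + 1 ≤ N / 20 + N / 100 := by linarith
    nlinarith
  filter_upwards [bc hX A W hW hWc] with ω hω
  obtain ⟨N₀, hN₀⟩ := eventually_atTop.1 (hω.and (hL.and hlogsmall))
  -- trivial bound
  have htriv : ∀ (N : ℕ) (g : ℕ → ℂ), (∀ n, ‖g n‖ ≤ 1) → ‖T (fun p => X p ω) g N‖ ≤ N := by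
    intro N g hg
    unfold T
    refine (norm_sum_le _ _).trans ?_
    have h1 : ∀ n ∈ Icc 1 N, ‖g n * (cm (fun p => X p ω) (n : ℤ) : ℂ)‖ ≤ 1 := by
      intro n hn
      have hn0 : (n : ℤ) ≠ 0 := by
        have := (mem_Icc.1 hn).1
        exact_mod_cast (by omega : n ≠ 0)
      rw [norm_mul, Complex.norm_real, Real.norm_eq_abs, OdL.cm_Od (fun p => hX.val p ω) hn0,
        OdL.abs_prod_X hX, mul_one]
      exact hg n
    refine (sum_le_sum h1).trans (le_of_eq ?_)
    rw [sum_const, Nat.card_Icc, nsmul_eq_mul, Nat.add_sub_cancel, mul_one]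
  have hl3 : 1 < Real.log 3 := by
    rw [Real.lt_log_iff_exp_lt (by norm_num)]
    have := Real.exp_one_lt_d9
    linarith
  have hll3 : 0 < Real.log (Real.log 3) := Real.log_pos hl3
  set κ := Real.sqrt (Real.log 3 * Real.log (Real.log 3)) with hκ
  have hκ0 : 0 < κ := Real.sqrt_pos.2 (mul_pos (by linarith) hll3)
  have hexκ : ∀ N : ℕ, 3 ≤ N → ∀ D : ℕ, 1 ≤ D → κ ≤ ex N D := by
    intro N hN D hD
    have h3 : (3 : ℝ) ≤ N := by exact_mod_cast hN
    have h1 : Real.log 3 ≤ Real.log N := Real.log_le_log (by norm_num) h3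
    have h2 : Real.log (Real.log 3) ≤ Real.log (Real.log N) := Real.log_le_log (by linarith) h1
    have h4 : κ ≤ Real.sqrt (Real.log N * Real.log (Real.log N)) :=
      Real.sqrt_le_sqrt (mul_le_mul h1 h2 hll3.le (by linarith))
    have h5 : (1 : ℝ) ≤ D := by exact_mod_cast hD
    unfold ex
    nlinarith
  set C : ℝ := max (141 + A) (Real.log (max N₀ 3) / κ) with hC
  have hC1 : (141 : ℝ) + A ≤ C := le_max_left _ _
  have hC2 : Real.log (max N₀ 3) / κ ≤ C := le_max_right _ _
  have hC0 : 0 ≤ C := le_trans (by positivity) hC1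
  refine ⟨C, fun N hN D hD w hw Q hQ => ?_⟩
  have hg : ∀ n, ‖w n * ee (Q.eval (n : ℝ))‖ ≤ 1 := by
    intro n
    rw [norm_mul, FAIRM.ee_norm, mul_one]
    exact hW N w hw n
  have h3 : (3 : ℝ) ≤ N := by exact_mod_cast hN
  have hNpos : (0 : ℝ) < N := by linarith
  have hsN : 1 ≤ Real.sqrt N := by rw [Real.one_le_sqrt]; linarith
  have hex := hexκ N hN D hD
  by_cases hc : N < N₀
  · -- small `N`
    refine (htriv N _ hg).trans ?_
    have h4 : (N : ℝ) ≤ max (N₀ : ℝ) 3 := le_trans (by exact_mod_cast hc.le) (le_max_left _ _)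
    have h5 : Real.log (max N₀ 3) ≤ C * ex N D := by
      rw [div_le_iff₀ hκ0] at hC2
      exact hC2.trans (mul_le_mul_of_nonneg_left hex hC0)
    have h6 : (max (N₀ : ℝ) 3) ≤ Real.exp (C * ex N D) := by
      rw [← Real.exp_log (by positivity : (0 : ℝ) < max (N₀ : ℝ) 3)]
      exact Real.exp_le_exp.2 h5
    calc (N : ℝ) ≤ 1 * Real.exp (C * ex N D) := by rw [one_mul]; exact h4.trans h6
      _ ≤ Real.sqrt N * Real.exp (C * ex N D) := mul_le_mul_of_nonneg_right hsN (Real.exp_pos _).le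
  · obtain ⟨h4, h5, h6⟩ := hN₀ N (not_lt.1 hc)
    set L := Real.log N with hLd
    have hl1 : 1 ≤ Real.log L := by
      rw [Real.le_log_iff_exp_le (by linarith)]
      have := Real.exp_one_lt_d9
      linarith
    have hD1 : (1 : ℝ) ≤ D := by exact_mod_cast hD
    have hsq1 : 1 ≤ Real.sqrt (L * Real.log L) := by
      rw [Real.one_le_sqrt]; nlinarith
    have hexD : (D : ℝ) ≤ ex N D := by
      unfold ex
      nlinarith
    by_cases hDL : (D : ℝ) ≤ L
    · obtain ⟨q, hq, hnet⟩ := FAIRM.net (N := N) (k := D) (by omega) Q hQ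
      have h7 := h4 D hD hDL w hw q hq
      have h8 : ‖T (fun p => X p ω) (fun n => w n * ee (Q.eval (n : ℝ))) N -
          T (fun p => X p ω) (gn N D w q) N‖ ≤ 1 := by
        unfold T
        rw [← sum_sub_distrib]
        refine (norm_sum_le _ _).trans ?_
        have e1 : ∀ n ∈ Icc 1 N, ‖w n * ee (Q.eval (n : ℝ)) * (cm (fun p => X p ω) (n : ℤ) : ℂ) -
            gn N D w q n * (cm (fun p => X p ω) (n : ℤ) : ℂ)‖ ≤ 2 * Real.pi * (D + 1) / (N : ℝ) ^ 2 := by
          intro n hn
          have hn0 : (n : ℤ) ≠ 0 := by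
            have := (mem_Icc.1 hn).1
            exact_mod_cast (by omega : n ≠ 0)
          rw [← sub_mul, norm_mul, Complex.norm_real, Real.norm_eq_abs,
            OdL.cm_Od (fun p => hX.val p ω) hn0, OdL.abs_prod_X hX, mul_one]
          unfold gn
          rw [← mul_sub, norm_mul]
          have := mul_le_mul (hW N w hw n) (hnet n (mem_Icc.1 hn).2) (norm_nonneg _) zero_le_one
          rwa [one_mul] at this
        refine (sum_le_sum e1).trans ?_
        rw [sum_const, Nat.card_Icc, nsmul_eq_mul, Nat.add_sub_cancel, mul_div_assoc',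
          div_le_one (by positivity), sq]
        refine mul_le_mul_of_nonneg_left ?_ hNpos.le
        refine le_trans ?_ h6
        have := Real.pi_pos
        gcongr
      have h9 := norm_le_norm_add_norm_sub' (T (fun p => X p ω) (fun n => w n * ee (Q.eval (n : ℝ))) N)
        (T (fun p => X p ω) (gn N D w q) N)
      have h10 : ‖T (fun p => X p ω) (fun n => w n * ee (Q.eval (n : ℝ))) N‖ ≤
          Real.sqrt N * Real.exp ((140 + A) * ex N D) + 1 := by linarith
      refine h10.trans ?_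
      have h11 : (1 : ℝ) ≤ Real.exp ((140 + A) * ex N D) := by
        apply Real.one_le_exp
        have : 0 ≤ ex N D := by linarith
        positivity
      have h12 : (2 : ℝ) ≤ Real.exp (ex N D) := by
        have := Real.add_one_le_exp (ex N D)
        linarith
      have h13 : Real.exp ((140 + A) * ex N D) * Real.exp (ex N D) ≤ Real.exp (C * ex N D) := by
        rw [← Real.exp_add]
        apply Real.exp_le_exp.2
        have : 0 ≤ ex N D := by linarith
        nlinarith
      have h14 : Real.sqrt N * Real.exp ((140 + A) * ex N D) + 1 ≤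
          Real.sqrt N * (Real.exp ((140 + A) * ex N D) * Real.exp (ex N D)) := by
        have h15 : 1 ≤ Real.sqrt N * Real.exp ((140 + A) * ex N D) := by nlinarith
        have h16 : Real.sqrt N * (Real.exp ((140 + A) * ex N D) * Real.exp (ex N D)) =
          (Real.sqrt N * Real.exp ((140 + A) * ex N D)) * Real.exp (ex N D) := by ring
        rw [h16]
        nlinarith
      exact h14.trans (mul_le_mul_of_nonneg_left h13 (by linarith))
    · -- large degree
      refine (htriv N _ hg).trans ?_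
      push Not at hDL
      have h7 : (N : ℝ) = Real.sqrt N * Real.sqrt N := (Real.mul_self_sqrt hNpos.le).symm
      have h8 : Real.sqrt N ≤ Real.exp (C * ex N D) := by
        have h9 : Real.sqrt N ≤ N := by
          rw [Real.sqrt_le_left hNpos.le]
          nlinarith
        refine h9.trans ?_
        rw [← Real.exp_log hNpos]
        apply Real.exp_le_exp.2
        have : 1 * ex N D ≤ C * ex N D := mul_le_mul_of_nonneg_right
          (le_trans (by have : (0 : ℝ) ≤ A := Nat.cast_nonneg _; linarith) hC1) (by linarith)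
        linarith
      calc (N : ℝ) = Real.sqrt N * Real.sqrt N := h7
        _ ≤ _ := mul_le_mul_of_nonneg_left h8 (by linarith)

end

end Pool.Agent.T2H67.RP
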