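import Pool.Agent.T2H31.RC.T_FAIRM
import Pool.Agent.T2H31.RC.OdLib
import Pool.Agent.T2H95.LR.CNT
import Pool.Agent.T2H95.LR.MOM
import Pool.Agent.T2H95.LR.TT
import Pool.Agent.T2H95.LR.SQC
import Pool.Agent.T2H95.LR.MAT
import Pool.Agent.T2H95.LR.REF

/-! # Moments of sums with random completely multiplicative coefficients -/

set_option autoImplicit false

open MeasureTheory ProbabilityTheory Finset

namespace Pool.Agent.T2H67.RP

open Pool.Agent.T2H31.RC Pool.Agent.T2H95.LR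

/-- the sum `∑_{n ≤ N} g(n) f(n)`, `f` completely multiplicative with the values `x p` at the primes -/
noncomputable def T (x : ℕ → ℝ) (g : ℕ → ℂ) (N : ℕ) : ℂ :=
  ∑ n ∈ Icc 1 N, g n * (cm x (n : ℤ) : ℂ)

noncomputable def co (g : ℕ → ℂ) {k : ℕ} : Fin k ⊕ Fin k → ℕ → ℂ
  | Sum.inl _, n => g n
  | Sum.inr _, n => (starRingEnd ℂ) (g n)

lemma co_norm (g : ℕ → ℂ) (hg : ∀ n, ‖g n‖ ≤ 1) {k : ℕ} (j : Fin k ⊕ Fin k) (n : ℕ) :
    ‖co g j n‖ ≤ 1 := by
  rcases j with j | j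
  · exact hg n
  · simp only [co]
    rw [RCLike.norm_conj]
    exact hg n

lemma expand (x : ℕ → ℝ) (g : ℕ → ℂ) (k N : ℕ) :
    (((‖T x g N‖ ^ (2 * k) : ℝ)) : ℂ) =
      ∑ v ∈ Fintype.piFinset (fun _ : Fin k ⊕ Fin k => Icc 1 N),
        ((∏ j, cm x (v j : ℤ) : ℝ) : ℂ) * ∏ j, co g j (v j) := by
  have h1 : (((‖T x g N‖ ^ (2 * k) : ℝ)) : ℂ) = T x g N ^ k * (starRingEnd ℂ) (T x g N) ^ k := by
    rw [← mul_pow, Complex.mul_conj, Complex.normSq_eq_norm_sq, pow_mul]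
    push_cast
    rfl
  have h2 : T x g N ^ k * (starRingEnd ℂ) (T x g N) ^ k =
      ∏ j : Fin k ⊕ Fin k, ∑ n ∈ Icc 1 N, (cm x (n : ℤ) : ℂ) * co g j n := by
    have hl : ∀ i : Fin k, ∑ n ∈ Icc 1 N, (cm x (n : ℤ) : ℂ) * co g (Sum.inl i : Fin k ⊕ Fin k) n =
        T x g N := by
      intro i
      unfold T
      refine Finset.sum_congr rfl fun n _ => ?_
      simp only [co]
      ring
    have hr : ∀ i : Fin k, ∑ n ∈ Icc 1 N, (cm x (n : ℤ) : ℂ) * co g (Sum.inr i : Fin k ⊕ Fin k) n =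
        (starRingEnd ℂ) (T x g N) := by
      intro i
      unfold T
      rw [map_sum]
      refine Finset.sum_congr rfl fun n _ => ?_
      simp only [co, map_mul, Complex.conj_ofReal]
      ring
    rw [Fintype.prod_sum_type, Finset.prod_congr rfl fun i _ => hl i,
      Finset.prod_congr rfl fun i _ => hr i, Finset.prod_const, Finset.prod_const,
      Finset.card_univ, Fintype.card_fin]
  rw [h1, h2, Finset.prod_univ_sum]
  refine Finset.sum_congr rfl fun v _ => ?_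
  rw [Finset.prod_mul_distrib]
  push_cast
  rfl

lemma mem_sqT {J : Type} [Fintype J] [DecidableEq J] {N : ℕ} {v : J → ℕ} :
    v ∈ sqT J N ↔ v ∈ Fintype.piFinset (fun _ : J => Icc 1 N) ∧ ∃ m : ℕ, ∏ j, v j = m ^ 2 := by
  classical
  unfold sqT
  exact Finset.mem_filter

section

variable {Ω : Type} [MeasurableSpace Ω] {P : Measure Ω} {X : ℕ → Ω → ℝ}

/-- the product of the values is the value at the product -/
lemma prod_cm {J : Type} [Fintype J] (x : ℕ → ℝ) (v : J → ℕ) (hv : ∀ j, v j ≠ 0) :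
    ∏ j, cm x (v j : ℤ) = cm x ((∏ j, v j : ℕ) : ℤ) := by
  classical
  have key : ∀ s : Finset J, cm x ((∏ j ∈ s, v j : ℕ) : ℤ) = ∏ j ∈ s, cm x (v j : ℤ) := by
    intro s
    induction s using Finset.induction_on with
    | empty => simpa using FAIRM.cm_one x
    | insert a s ha ih =>
      rw [prod_insert ha, prod_insert ha, FAIRM.cm_mul x (hv a)
        (prod_ne_zero_iff.2 fun i _ => hv i), ih]
  exact (key univ).symm

lemma prod_Od (hX : Noise P (fun _ => 1 / 2) X) {J : Type} [Fintype J] (v : J → ℕ)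
    (hv : ∀ j, v j ≠ 0) (ω : Ω) :
    ∏ j, cm (fun p => X p ω) (v j : ℤ) = ∏ p ∈ OdL.Od ((∏ j, v j : ℕ) : ℤ), X p ω := by
  rw [prod_cm _ v hv]
  exact OdL.cm_Od (fun p => hX.val p ω) (by exact_mod_cast prod_ne_zero_iff.2 fun i _ => hv i)

lemma integral_zero (hX : Noise P (fun _ => 1 / 2) X) {J : Type} [Fintype J] (v : J → ℕ)
    (hv : ∀ j, v j ≠ 0) (hsq : ¬ ∃ m : ℕ, ∏ j, v j = m ^ 2) :
    ∫ ω, ∏ j, cm (fun p => X p ω) (v j : ℤ) ∂P = 0 := by
  simp_rw [prod_Od hX v hv]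
  rw [OdL.integral_prod hX (fun _ => by norm_num)]
  have h0 : (((∏ j, v j : ℕ) : ℤ)) ≠ 0 := by
    exact_mod_cast prod_ne_zero_iff.2 fun i _ => hv i
  have hne : OdL.Od ((∏ j, v j : ℕ) : ℤ) ≠ ∅ := by
    intro h
    apply hsq
    have h1 : OdL.Od 1 = ∅ := by simp [OdL.Od]
    obtain ⟨r, hr⟩ := OdL.isSquare_of_Od h0 one_ne_zero (h.trans h1.symm)
    refine ⟨r.natAbs, ?_⟩
    rw [mul_one, abs_of_nonneg (by positivity)] at hr
    have h2 : ((∏ j, v j : ℕ) : ℤ) = ((r.natAbs ^ 2 : ℕ) : ℤ) := by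
      rw [hr]
      push_cast
      rw [sq_abs, sq]
    exact_mod_cast h2
  obtain ⟨p, hp⟩ := Finset.nonempty_iff_ne_empty.2 hne
  exact Finset.prod_eq_zero hp (by norm_num)

theorem moment (hX : Noise P (fun _ => 1 / 2) X) (g : ℕ → ℂ) (hg : ∀ n, ‖g n‖ ≤ 1) (k N : ℕ)
    (hk : 1 ≤ k) (hN : 1 ≤ N) :
    Integrable (fun ω => ‖T (fun p => X p ω) g N‖ ^ (2 * k)) P ∧
    ∫ ω, ‖T (fun p => X p ω) g N‖ ^ (2 * k) ∂P ≤
      (N : ℝ) ^ k * (1 + k * Real.log N) ^ (16 * k ^ 2) := by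
  have hprob := hX.prob
  have hnz : ∀ v ∈ Fintype.piFinset (fun _ : Fin k ⊕ Fin k => Icc 1 N), ∀ j, v j ≠ 0 := by
    intro v hv j
    have := (Finset.mem_Icc.1 (Fintype.mem_piFinset.1 hv j)).1
    omega
  have hint : ∀ v ∈ Fintype.piFinset (fun _ : Fin k ⊕ Fin k => Icc 1 N),
      Integrable (fun ω => ∏ j, cm (fun p => X p ω) (v j : ℤ)) P := by
    intro v hv
    simp_rw [prod_Od hX v (hnz v hv)]
    exact OdL.integrable_prod hX _
  have hbd : ∀ v ∈ Fintype.piFinset (fun _ : Fin k ⊕ Fin k => Icc 1 N),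
      ‖∫ ω, ∏ j, cm (fun p => X p ω) (v j : ℤ) ∂P‖ ≤ 1 := by
    intro v hv
    have h1 : ∀ᵐ ω ∂P, ‖∏ j, cm (fun p => X p ω) (v j : ℤ)‖ ≤ 1 := by
      refine ae_of_all _ fun ω => ?_
      rw [prod_Od hX v (hnz v hv), Real.norm_eq_abs, OdL.abs_prod_X hX]
    have := norm_integral_le_of_norm_le_const h1
    simpa using this
  have hF : Integrable (fun ω => (((‖T (fun p => X p ω) g N‖ ^ (2 * k) : ℝ)) : ℂ)) P := by
    have : (fun ω => (((‖T (fun p => X p ω) g N‖ ^ (2 * k) : ℝ)) : ℂ)) = fun ω =>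
      ∑ v ∈ Fintype.piFinset (fun _ : Fin k ⊕ Fin k => Icc 1 N),
        ((∏ j, cm (fun p => X p ω) (v j : ℤ) : ℝ) : ℂ) * ∏ j, co g j (v j) := by
      funext ω
      exact expand _ g k N
    rw [this]
    exact integrable_finsetSum _ fun v hv => (hint v hv).ofReal.mul_const _
  refine ⟨?_, ?_⟩
  · have := hF.re
    refine this.congr (ae_of_all _ fun x => ?_)
    exact Complex.ofReal_re _
  · have h1 : ((∫ ω, ‖T (fun p => X p ω) g N‖ ^ (2 * k) ∂P : ℝ) : ℂ) =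
        ∑ v ∈ Fintype.piFinset (fun _ : Fin k ⊕ Fin k => Icc 1 N),
          ((∫ ω, ∏ j, cm (fun p => X p ω) (v j : ℤ) ∂P : ℝ) : ℂ) * ∏ j, co g j (v j) := by
      rw [← integral_complex_ofReal]
      have : (fun ω => (((‖T (fun p => X p ω) g N‖ ^ (2 * k) : ℝ)) : ℂ)) = fun ω =>
        ∑ v ∈ Fintype.piFinset (fun _ : Fin k ⊕ Fin k => Icc 1 N),
          ((∏ j, cm (fun p => X p ω) (v j : ℤ) : ℝ) : ℂ) * ∏ j, co g j (v j) := by
        funext ω
        exact expand _ g k N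
      rw [this, integral_finsetSum _ fun v hv => (hint v hv).ofReal.mul_const _]
      refine Finset.sum_congr rfl fun v _ => ?_
      rw [integral_mul_const, integral_complex_ofReal]
    have h2 : ∫ ω, ‖T (fun p => X p ω) g N‖ ^ (2 * k) ∂P ≤
        ‖((∫ ω, ‖T (fun p => X p ω) g N‖ ^ (2 * k) ∂P : ℝ) : ℂ)‖ := by
      rw [Complex.norm_real]
      exact le_abs_self _
    refine h2.trans ?_
    rw [h1]
    refine (norm_sum_le _ _).trans ?_
    have h6 : ∑ v ∈ Fintype.piFinset (fun _ : Fin k ⊕ Fin k => Icc 1 N),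
        ‖((∫ ω, ∏ j, cm (fun p => X p ω) (v j : ℤ) ∂P : ℝ) : ℂ) * ∏ j, co g j (v j)‖ =
        ∑ v ∈ sqT (Fin k ⊕ Fin k) N,
        ‖((∫ ω, ∏ j, cm (fun p => X p ω) (v j : ℤ) ∂P : ℝ) : ℂ) * ∏ j, co g j (v j)‖ := by
      symm
      refine Finset.sum_subset (fun v hv => (mem_sqT.1 hv).1) ?_
      intro v hv hv'
      have hns : ¬ ∃ m : ℕ, ∏ j, v j = m ^ 2 := fun h => hv' (mem_sqT.2 ⟨hv, h⟩)
      rw [integral_zero hX v (hnz v hv) hns]
      simp
    rw [h6]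
    have hN0 : (0 : ℝ) < N := by exact_mod_cast hN
    have h7 : ∀ v ∈ sqT (Fin k ⊕ Fin k) N,
        ‖((∫ ω, ∏ j, cm (fun p => X p ω) (v j : ℤ) ∂P : ℝ) : ℂ) * ∏ j, co g j (v j)‖ ≤
        (N : ℝ) ^ k * ∏ j, ((v j).divisors.card : ℝ) / Real.sqrt (v j) := by
      intro v hv
      have hv' := (mem_sqT.1 hv).1
      rw [norm_mul, Complex.norm_real, norm_prod]
      have h4 := hbd v hv'
      have h5 : ∏ j, ‖co g j (v j)‖ ≤ 1 :=
        Finset.prod_le_one (fun j _ => norm_nonneg _) fun j _ => co_norm g hg j (v j)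
      have h8 : ‖∫ ω, ∏ j, cm (fun p => X p ω) (v j : ℤ) ∂P‖ * ∏ j, ‖co g j (v j)‖ ≤ 1 :=
        mul_le_one₀ h4 (Finset.prod_nonneg fun j _ => norm_nonneg _) h5
      refine h8.trans ?_
      have h9 : (N : ℝ) ^ k = ∏ _j : Fin k ⊕ Fin k, Real.sqrt N := by
        rw [Finset.prod_const, Finset.card_univ, Fintype.card_sum, Fintype.card_fin, ← two_mul,
          pow_mul, Real.sq_sqrt hN0.le]
      rw [h9, ← Finset.prod_mul_distrib]
      have hone : (1 : ℝ) = ∏ _j : Fin k ⊕ Fin k, (1 : ℝ) := by simp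
      rw [hone]
      refine Finset.prod_le_prod (fun _ _ => zero_le_one) fun j _ => ?_
      have h10 := Finset.mem_Icc.1 (Fintype.mem_piFinset.1 hv' j)
      have h11 : (1 : ℝ) ≤ ((v j).divisors.card : ℝ) := by
        have : 0 < (v j).divisors.card := Finset.card_pos.2 ⟨1, Nat.one_mem_divisors.2 (by omega)⟩
        exact_mod_cast this
      have h12 : (0 : ℝ) < Real.sqrt (v j) := Real.sqrt_pos.2 (by exact_mod_cast (by omega : 0 < v j))
      have h13 : Real.sqrt (v j) ≤ Real.sqrt N := Real.sqrt_le_sqrt (by exact_mod_cast h10.2)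
      rw [mul_div_assoc', le_div_iff₀ h12, one_mul]
      nlinarith [Real.sqrt_nonneg (N : ℝ)]
    refine (Finset.sum_le_sum h7).trans ?_
    rw [← Finset.mul_sum]
    refine mul_le_mul_of_nonneg_left ?_ (by positivity)
    have hCNT := pCNT (pSQC pREF) (pTT (pMAT pREF)) k N hk
    refine hCNT.trans ?_
    have hNk : 1 ≤ N ^ k := Nat.one_le_pow _ _ hN
    have h3 := MOM.H_le hNk
    have h4 : Real.log ((N ^ k : ℕ) : ℝ) = k * Real.log N := by
      push_cast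
      rw [Real.log_pow]
    rw [h4] at h3
    have h5 : 0 ≤ H (N ^ k) := Finset.sum_nonneg fun n _ => by positivity
    exact pow_le_pow_left₀ h5 h3 _

/-- large deviations -/
theorem tail (hX : Noise P (fun _ => 1 / 2) X) (g : ℕ → ℂ) (hg : ∀ n, ‖g n‖ ≤ 1) (k N : ℕ)
    (hk : 1 ≤ k) (hN : 1 ≤ N) (V : ℝ) (hV : 0 < V) :
    P {ω | Real.sqrt N * V ≤ ‖T (fun p => X p ω) g N‖} ≤
      ENNReal.ofReal ((1 + k * Real.log N) ^ (16 * k ^ 2) / V ^ (2 * k)) := by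
  have hprob := hX.prob
  obtain ⟨h1, h2⟩ := moment hX g hg k N hk hN
  have hN0 : (0 : ℝ) < N := by exact_mod_cast hN
  have hs : 0 < Real.sqrt N := Real.sqrt_pos.2 hN0
  have hpos : 0 < (Real.sqrt N * V) ^ (2 * k) := by positivity
  have h0 : ∀ ω, (0 : ℝ) ≤ ‖T (fun p => X p ω) g N‖ ^ (2 * k) := fun ω => by positivity
  have h3 := mul_meas_ge_le_integral_of_nonneg (μ := P)
    (f := fun ω => ‖T (fun p => X p ω) g N‖ ^ (2 * k)) (Filter.Eventually.of_forall h0) h1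
    ((Real.sqrt N * V) ^ (2 * k))
  have h4 : {ω | Real.sqrt N * V ≤ ‖T (fun p => X p ω) g N‖} ⊆
      {ω | (Real.sqrt N * V) ^ (2 * k) ≤ ‖T (fun p => X p ω) g N‖ ^ (2 * k)} := by
    intro ω hω
    have hω' : Real.sqrt N * V ≤ ‖T (fun p => X p ω) g N‖ := hω
    have h0' : (0 : ℝ) ≤ Real.sqrt N * V := by positivity
    exact pow_le_pow_left₀ h0' hω' (2 * k)
  refine (measure_mono h4).trans ?_
  have hlog : 0 ≤ Real.log N := Real.log_nonneg (by exact_mod_cast hN)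
  have hb : 0 ≤ (1 + k * Real.log N) ^ (16 * k ^ 2) / V ^ (2 * k) := by positivity
  rw [ENNReal.le_ofReal_iff_toReal_le (measure_ne_top _ _) hb]
  rw [le_div_iff₀ (by positivity)]
  have h5 : (Real.sqrt N * V) ^ (2 * k) = (N : ℝ) ^ k * V ^ (2 * k) := by
    rw [mul_pow, pow_mul (Real.sqrt N), Real.sq_sqrt hN0.le]
  have h6 : (N : ℝ) ^ k * V ^ (2 * k) *
      (P {ω | (Real.sqrt N * V) ^ (2 * k) ≤ ‖T (fun p => X p ω) g N‖ ^ (2 * k)}).toReal ≤
      (N : ℝ) ^ k * (1 + k * Real.log N) ^ (16 * k ^ 2) := by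
    rw [← h5]
    exact h3.trans h2
  have h7 : (0 : ℝ) < (N : ℝ) ^ k := by positivity
  have h8 : (N : ℝ) ^ k * (V ^ (2 * k) *
      (P {ω | (Real.sqrt N * V) ^ (2 * k) ≤ ‖T (fun p => X p ω) g N‖ ^ (2 * k)}).toReal) ≤
      (N : ℝ) ^ k * (1 + k * Real.log N) ^ (16 * k ^ 2) := by
    rw [← mul_assoc]; exact h6
  have := le_of_mul_le_mul_left h8 h7
  rw [mul_comm] at this
  exact this

end

end Pool.Agent.T2H67.RP
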