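import Pool.Agent.T2H67.RP.Chr
import Pool.Agent.T2H31.RC.T_MOD

/-!
# Random multiplicative functions against all polynomial phases of all degrees

Model for the question: the signs `X p` at the primes are independent and fair (`Noise P (1/2) X`), `mo X` is the random
multiplicative function supported on the squarefree numbers with these values (for `X = -1` it is the Moebius function),
`cm X` the completely multiplicative one (for `X = -1` the Liouville function).

Almost surely, for all `B` there is `C` such that for all `N ≥ 3`, all degrees `D ≥ 1`, all real polynomials `Q` of degree at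
most `D`, all Dirichlet characters `χ` modulo `q ≤ N ^ B` and all real `|t| ≤ N ^ B`, the sums
`∑_{n ≤ N} f(n) χ(n) n^(-it) e(Q(n))`, `f = mo X` or `f = cm X`, are at most `√N exp (C D √(log N log log N))`.

For `χ = 1`, `t = 0`, `D = 1` these are the sums of the question, with the exponent `1/2` and the bound
`√N exp (C √(log N log log N))`, uniformly in the frequency. The bound is uniform in the degree, too: it is
`N ^ (1/2 + o(1))` as long as `D = o(√(log N / log log N))`.

Proof: the moment of order `2 k` of a sum is at most `N ^ k (1 + k log N) ^ (16 k²)` (number of the `2k`-tuples with square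
product, weighted by the inverse square roots), `k` is about `D √(log N / log log N)`; a net of `N ^ O(D²)` polynomials; the
lemma of Borel and Cantelli.
-/

set_option autoImplicit false

open MeasureTheory Finset

namespace Pool.Agent.T2H67.RP.Result

open Pool.Agent.T2H31.RC Pool.Agent.T2H67.RP

theorem result :
    (∃ (Ω : Type) (_ : MeasurableSpace Ω) (P : Measure Ω) (X : ℕ → Ω → ℝ), Noise P (fun _ => 1 / 2) X) ∧
    ∀ (Ω : Type) [MeasurableSpace Ω] (P : Measure Ω) (X : ℕ → Ω → ℝ), Noise P (fun _ => 1 / 2) X →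
      ∀ᵐ ω ∂P, ∀ B : ℕ, ∃ C : ℝ, ∀ N D : ℕ, 3 ≤ N → 1 ≤ D → ∀ Q : Polynomial ℝ, Q.natDegree ≤ D →
        ∀ q : ℕ, 1 ≤ q → q ≤ N ^ B → ∀ χ : DirichletCharacter ℂ q, ∀ t : ℝ, |t| ≤ (N : ℝ) ^ B →
        ‖∑ n ∈ Icc 1 N, (mo (fun p => X p ω) n : ℂ) * χ n * (n : ℂ) ^ (-(t * Complex.I)) *
            Complex.exp (2 * Real.pi * (Q.eval (n : ℝ) : ℝ) * Complex.I)‖ ≤
          Real.sqrt N * Real.exp (C * (D * Real.sqrt (Real.log N * Real.log (Real.log N)))) ∧
        ‖∑ n ∈ Icc 1 N, (cm (fun p => X p ω) (n : ℤ) : ℂ) * χ n * (n : ℂ) ^ (-(t * Complex.I)) *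
            Complex.exp (2 * Real.pi * (Q.eval (n : ℝ) : ℝ) * Complex.I)‖ ≤
          Real.sqrt N * Real.exp (C * (D * Real.sqrt (Real.log N * Real.log (Real.log N)))) := by
  refine ⟨T_MOD (fun _ => 1 / 2) fun _ => by norm_num, ?_⟩
  intro Ω _ P X hX
  have h1 : ∀ᵐ ω ∂P, ∀ B : ℕ, ∃ C : ℝ, ∀ N : ℕ, 3 ≤ N → ∀ D : ℕ, 1 ≤ D → ∀ q : ℕ, 1 ≤ q → q ≤ N ^ B →
      ∀ χ : DirichletCharacter ℂ q, ∀ t : ℝ, |t| ≤ (N : ℝ) ^ B → ∀ Q : Polynomial ℝ, Q.natDegree ≤ D →
      ∀ b : Bool, ‖T (fun p => X p ω) (fun n => wt b χ t n * ee (Q.eval (n : ℝ))) N‖ ≤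
        Real.sqrt N * Real.exp (C * ex N D) := ae_all_iff.2 fun B => all hX B
  filter_upwards [h1] with ω hω B
  obtain ⟨C, hC⟩ := hω B
  refine ⟨C, fun N D hN hD Q hQ q hq1 hq χ t ht => ⟨?_, ?_⟩⟩
  · have h2 := hC N hN D hD q hq1 hq χ t ht Q hQ true
    unfold ex at h2
    refine le_trans (le_of_eq ?_) h2
    unfold T
    congr 1
    refine sum_congr rfl fun n hn => ?_
    have hn0 : n ≠ 0 := by
      have := (mem_Icc.1 hn).1
      omega
    unfold wt Pool.Agent.T2H67.RP.sq Pool.Agent.T2H95.LR.BC.gw ee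
    beta_reduce
    rw [if_neg hn0]
    by_cases hs : Squarefree n
    · rw [FAIRM.cm_sqf _ hs, if_neg (by simp [hs])]
      ring
    · rw [if_pos ⟨rfl, hs⟩]
      have : mo (fun p => X p ω) n = 0 := by unfold mo; rw [if_neg hs]
      rw [this]
      simp
  · have h2 := hC N hN D hD q hq1 hq χ t ht Q hQ false
    unfold ex at h2
    refine le_trans (le_of_eq ?_) h2
    unfold T
    congr 1
    refine sum_congr rfl fun n hn => ?_
    have hn0 : n ≠ 0 := by
      have := (mem_Icc.1 hn).1
      omega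
    unfold wt Pool.Agent.T2H67.RP.sq Pool.Agent.T2H95.LR.BC.gw ee
    beta_reduce
    rw [if_neg hn0, if_neg (by simp)]
    ring

end Pool.Agent.T2H67.RP.Result
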